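import Pool.Agent.Y294.TB2.Stm

/-!
The isotropic hyperplane through a generic isotropic line is generic.
-/

set_option autoImplicit false

namespace Pool.Agent.Y445.TB2

open MvPolynomial Set H450Al Pool.Agent.Y294.TB2

section tower
variable (k : Type*) {Ω : Type*} [Field k] [Field Ω] [Algebra k Ω]

theorem cl_union (X S : Set Ω) :
    cl k (X ∪ S) = cl (IntermediateField.adjoin k X) S := by
  ext a
  rw [mem_cl, mem_cl, ← IntermediateField.isAlgebraic_adjoin_iff,
    ← IntermediateField.isAlgebraic_adjoin_iff, ← IntermediateField.adjoin_adjoin_left]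
  exact Iff.rfl

theorem rk_tower_le (X S : Set Ω) :
    rk k (X ∪ S) ≤ rk k X + rk (IntermediateField.adjoin k X) S := by
  obtain ⟨J, hJ⟩ := (AlgebraicIndependent.matroid (IntermediateField.adjoin k X) Ω).exists_isBasis S
  have h1 : rk (IntermediateField.adjoin k X) S = J.encard := by
    unfold rk
    exact hJ.eRk_eq_encard
  have h2 : S ⊆ cl (IntermediateField.adjoin k X) J := by
    unfold cl
    rw [hJ.closure_eq_closure]
    exact subset_cl (IntermediateField.adjoin k X) S
  have h3 : X ∪ S ⊆ cl k (X ∪ J) := by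
    refine union_subset (subset_union_left.trans (subset_cl k _)) ?_
    rw [cl_union]
    exact h2
  rw [h1]
  refine (rk_mono k h3).trans ((rk_union k X J).trans ?_)
  gcongr
  exact rk_le_encard k J

/-- If a polynomial vanishes along a line, then its leading form vanishes at the direction. -/
theorem lead_zero [Infinite Ω] {d : ℕ} (P : MvPolynomial (Fin d) k) (q e : Fin d → Ω)
    (h : ∀ s : Ω, aeval (fun i => q i + s * e i) P = 0) : aeval e (lead P) = 0 := by
  classical
  set N := P.totalDegree with hN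
  set p : Polynomial Ω := ∑ j ∈ Finset.range (N + 1),
    Polynomial.X ^ (N - j) * aeval (fun i => Polynomial.X * Polynomial.C (q i) +
      Polynomial.C (e i)) (homogeneousComponent j P) with hp
  have hev : ∀ (r : Ω) (Q : MvPolynomial (Fin d) k),
      Polynomial.eval r (aeval (fun i => Polynomial.X * Polynomial.C (q i) +
        Polynomial.C (e i)) Q) = aeval (fun i => r * q i + e i) Q := by
    intro r Q
    have := comp_aeval_apply (fun i => Polynomial.X * Polynomial.C (q i) +
            Polynomial.C (e i) : Fin d → Polynomial Ω)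
          ((Polynomial.aeval r : Polynomial Ω →ₐ[Ω] Ω).restrictScalars k) Q
    have e2 : (fun i => ((Polynomial.aeval r : Polynomial Ω →ₐ[Ω] Ω).restrictScalars k)
            (Polynomial.X * Polynomial.C (q i) + Polynomial.C (e i))) =
            fun i => r * q i + e i := by
          funext i
          simp
          ring
    rw [e2] at this
    rw [← this]
    simp [Polynomial.coe_aeval_eq_eval]
  have hpe : ∀ r : Ω, Polynomial.eval r p = ∑ j ∈ Finset.range (N + 1), r ^ (N - j) *
      aeval (fun i => r * q i + e i) (homogeneousComponent j P) := by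
    intro r
    rw [hp, Polynomial.eval_finsetSum]
    refine Finset.sum_congr rfl fun j _ => ?_
    rw [Polynomial.eval_mul, Polynomial.eval_pow, Polynomial.eval_X, hev]
  have hz : ∀ r : Ω, r ≠ 0 → Polynomial.eval r p = 0 := by
    intro r hr
    rw [hpe, rev_identity P q e r⁻¹ r (inv_mul_cancel₀ hr), h, mul_zero]
  have hXp : Polynomial.X * p = 0 := by
    apply Polynomial.funext
    intro r
    rw [Polynomial.eval_mul, Polynomial.eval_X, Polynomial.eval_zero]
    by_cases hr : r = 0
    · rw [hr, zero_mul]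
    · rw [hz r hr, mul_zero]
  have hp0 : p = 0 := (mul_eq_zero.1 hXp).resolve_left Polynomial.X_ne_zero
  have h0 : Polynomial.eval 0 p = aeval e (lead P) := by
    rw [hpe, Finset.sum_eq_single N]
    · rw [Nat.sub_self, pow_zero, one_mul]
      simp only [zero_mul, zero_add]
      rfl
    · intro j hj hjN
      have : N - j ≠ 0 := by
        have := Finset.mem_range.1 hj
        omega
      rw [zero_pow this, zero_mul]
    · intro hN'
      exact absurd (Finset.mem_range.2 (Nat.lt_succ_self _)) hN'
  rw [← h0, hp0, Polynomial.eval_zero]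

end tower

theorem hg : S2_HG := by
  intro m k Ω _ _ _ _ q e P l₀ hP hq he hrk hl₀
  classical
  have : CharZero k := (algebraMap k ℝ).charZero
  have : CharZero Ω := charZero_of_injective_algebraMap (algebraMap k Ω).injective
  have : Infinite Ω := CharZero.infinite Ω
  set γ : Ω := (∑ l, q l * e l) / e l₀ with hγ
  set R : Set Ω := range fun l => e l / e l₀ with hR
  have hP0 : P ≠ 0 := by
    rintro rfl
    apply hP
    rw [show lead (0 : MvPolynomial (Fin (m + 2)) k) = 0 by simp [lead]]
    exact dvd_zero _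
  have hre : rk k (range e) ≤ ((m + 1 : ℕ) : ℕ∞) :=
    rk_lt_of_relation k e (Dq k (m + 2)) (Dq_ne_zero k m) (by
      unfold Dq
      rw [map_sum]
      simpa using he)
  have hrq : rk k (range q) ≤ ((m + 1 : ℕ) : ℕ∞) := rk_lt_of_relation k q P hP0 hq
  have hre' : ((m + 1 : ℕ) : ℕ∞) ≤ rk k (range e) := by
    have h1 := hrk.trans (rk_union k _ _)
    have h2 : rk k (range q) + rk k (range e) ≤ ((m + 1 : ℕ) : ℕ∞) + rk k (range e) := by
      gcongr
    have h3 : ((m + 1 : ℕ) : ℕ∞) + ((m + 1 : ℕ) : ℕ∞) ≤ ((m + 1 : ℕ) : ℕ∞) + rk k (range e) := by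
      refine le_trans (le_of_eq ?_) (h1.trans h2)
      rw [← Nat.cast_add]
      congr 1
      ring
    exact (ENat.add_le_add_iff_left (ENat.natCast_ne_top _)).1 h3
  have hRe : R ⊆ cl k (range e) := by
    rintro _ ⟨l, rfl⟩
    have h1 : e l ∈ cl k (range e) := subset_cl k _ ⟨l, rfl⟩
    have h2 : (e l₀)⁻¹ ∈ cl k (range e) := inv_mem_cl k (subset_cl k _ ⟨l₀, rfl⟩)
    change e l / e l₀ ∈ cl k (range e)
    rw [div_eq_mul_inv]
    exact (clAlg k (range e)).mul_mem h1 h2
  have hRm : ((m : ℕ) : ℕ∞) ≤ rk k R := by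
    have h1 : range e ⊆ cl k (insert (e l₀) R) := by
      rintro _ ⟨l, rfl⟩
      have h1 : e l / e l₀ ∈ cl k (insert (e l₀) R) := subset_cl k _ (Or.inr ⟨l, rfl⟩)
      have h2 : e l₀ ∈ cl k (insert (e l₀) R) := subset_cl k _ (Or.inl rfl)
      have h3 : e l = e l / e l₀ * e l₀ := by field_simp
      rw [h3]
      exact (clAlg k (insert (e l₀) R)).mul_mem h1 h2
    have h2 := hre'.trans ((rk_mono k h1).trans (rk_insert k R (e l₀)))
    have h3 : ((m : ℕ) : ℕ∞) + 1 ≤ rk k R + 1 := by
      refine le_trans (le_of_eq ?_) h2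
      push_cast
      rfl
    exact (ENat.add_le_add_iff_right (ENat.natCast_ne_top 1)).1 h3
  by_cases hγR : γ ∈ cl k R
  swap
  · rw [rk_insert_eq k R γ hγR]
    push_cast
    gcongr
  exfalso
  have hγe : γ ∈ cl k (range e) := cl_cl_mono k hRe hγR
  -- the field
  set X₀ : Set Ω := insert γ (range e) with hX
  have hX1 : rk k X₀ ≤ ((m + 1 : ℕ) : ℕ∞) := by
    refine (rk_mono k ?_).trans hre
    rw [hX]
    exact insert_subset hγe (subset_cl k _)
  set L := IntermediateField.adjoin k X₀ with hL
  set q' : Fin (m + 1) → Ω := fun i => q (l₀.succAbove i) with hq'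
  have hγL : γ ∈ L := IntermediateField.subset_adjoin k X₀ (Or.inl rfl)
  have heL : ∀ l, e l / e l₀ ∈ L := fun l => L.div_mem
    (IntermediateField.subset_adjoin k X₀ (Or.inr ⟨l, rfl⟩))
    (IntermediateField.subset_adjoin k X₀ (Or.inr ⟨l₀, rfl⟩))
  have hsum : q l₀ = γ - ∑ i, e (l₀.succAbove i) / e l₀ * q' i := by
    rw [hγ, Fin.sum_univ_succAbove _ l₀, Finset.sum_congr rfl (fun i _ =>
      show e (l₀.succAbove i) / e l₀ * q' i =
        (q (l₀.succAbove i) * e (l₀.succAbove i)) / e l₀ by rw [hq']; ring), ← Finset.sum_div]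
    field_simp
    ring
  have hesum : ∑ i, e (l₀.succAbove i) / e l₀ * e (l₀.succAbove i) = - e l₀ := by
    rw [Fin.sum_univ_succAbove _ l₀] at he
    rw [Finset.sum_congr rfl (fun i _ =>
      show e (l₀.succAbove i) / e l₀ * e (l₀.succAbove i) =
        (e (l₀.succAbove i)) ^ 2 / e l₀ by ring), ← Finset.sum_div, div_eq_iff hl₀]
    linear_combination he
  have hqr : ((m + 1 : ℕ) : ℕ∞) ≤ rk L (range q') := by
    have h1 : range q ∪ range e ⊆ cl k (X₀ ∪ range q') := by
      rintro _ (⟨l, rfl⟩ | ⟨l, rfl⟩)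
      · have hq1 : ∀ i, q' i ∈ clAlg k (X₀ ∪ range q') :=
          fun i => subset_cl k _ (Or.inr ⟨i, rfl⟩)
        have hγ1 : γ ∈ clAlg k (X₀ ∪ range q') := subset_cl k _ (Or.inl (Or.inl rfl))
        have he1 : ∀ l, e l ∈ clAlg k (X₀ ∪ range q') :=
          fun l => subset_cl k _ (Or.inl (Or.inr ⟨l, rfl⟩))
        rcases Fin.eq_self_or_eq_succAbove l₀ l with h | ⟨i, h⟩
        · rw [h, hsum]
          refine (clAlg k (X₀ ∪ range q')).sub_mem hγ1 ?_
          refine (clAlg k (X₀ ∪ range q')).sum_mem fun i _ => ?_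
          refine (clAlg k (X₀ ∪ range q')).mul_mem ?_ (hq1 i)
          rw [div_eq_mul_inv]
          exact (clAlg k (X₀ ∪ range q')).mul_mem (he1 _) (inv_mem_cl k (he1 l₀))
        · rw [h]
          exact hq1 i
      · exact subset_cl k _ (Or.inl (Or.inr ⟨l, rfl⟩))
    have h2 := hrk.trans ((rk_mono k h1).trans (rk_tower_le k X₀ (range q')))
    have h3 : rk k X₀ + rk L (range q') ≤ ((m + 1 : ℕ) : ℕ∞) + rk L (range q') := by
      gcongr
    have h4 : ((m + 1 : ℕ) : ℕ∞) + ((m + 1 : ℕ) : ℕ∞) ≤
        ((m + 1 : ℕ) : ℕ∞) + rk L (range q') := by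
      refine le_trans (le_of_eq ?_) (h2.trans h3)
      rw [← Nat.cast_add]
      congr 1
      ring
    exact (ENat.add_le_add_iff_left (ENat.natCast_ne_top _)).1 h4
  -- the polynomial
  set w : Fin (m + 2) → MvPolynomial (Fin (m + 1)) L := l₀.insertNth
    (C (⟨γ, hγL⟩ : L) - ∑ i, C (⟨e (l₀.succAbove i) / e l₀, heL _⟩ : L) * X i)
    (fun i => X i) with hw
  have hcomp : ∀ x' : Fin (m + 1) → Ω, aeval x' (aeval w P) =
      aeval (l₀.insertNth (γ - ∑ i, e (l₀.succAbove i) / e l₀ * x' i) x' : Fin (m + 2) → Ω) P := by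
    intro x'
    have h1 := comp_aeval_apply w ((aeval x' : MvPolynomial (Fin (m + 1)) L →ₐ[L] Ω).restrictScalars k) P
    have h2 : (fun l => ((aeval x' : MvPolynomial (Fin (m + 1)) L →ₐ[L] Ω).restrictScalars k) (w l)) =
        (l₀.insertNth (γ - ∑ i, e (l₀.succAbove i) / e l₀ * x' i) x' : Fin (m + 2) → Ω) := by
      funext l
      rcases Fin.eq_self_or_eq_succAbove l₀ l with h | ⟨i, h⟩
      · rw [h, hw, Fin.insertNth_apply_same, Fin.insertNth_apply_same]
        simp only [AlgHom.restrictScalars_apply, map_sub, map_sum, map_mul, aeval_X, aeval_C]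
        rfl
      · rw [h, hw, Fin.insertNth_apply_succAbove, Fin.insertNth_apply_succAbove]
        simp
    rw [h2] at h1
    exact h1
  have hG : aeval w P = 0 := by
    by_contra hG
    have h1 : aeval q' (aeval w P) = 0 := by
      rw [hcomp, ← hsum]
      have : (l₀.insertNth (q l₀) q' : Fin (m + 2) → Ω) = q := by
        funext l
        rcases Fin.eq_self_or_eq_succAbove l₀ l with h | ⟨i, h⟩
        · rw [h, Fin.insertNth_apply_same]
        · rw [h, Fin.insertNth_apply_succAbove]
      rw [this]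
      exact hq
    have h2 := hqr.trans (rk_lt_of_relation L q' _ hG h1)
    have := Nat.cast_le.1 h2
    omega
  have hline : ∀ s : Ω, aeval (fun i => q i + s * e i) P = 0 := by
    intro s
    have h1 := hcomp (fun i => q (l₀.succAbove i) + s * e (l₀.succAbove i))
    rw [hG, map_zero] at h1
    have h2 : (l₀.insertNth (γ - ∑ i, e (l₀.succAbove i) / e l₀ *
        (q (l₀.succAbove i) + s * e (l₀.succAbove i)))
        (fun i => q (l₀.succAbove i) + s * e (l₀.succAbove i)) : Fin (m + 2) → Ω) =
        fun i => q i + s * e i := by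
      funext l
      rcases Fin.eq_self_or_eq_succAbove l₀ l with h | ⟨i, h⟩
      · rw [h, Fin.insertNth_apply_same]
        have h3 : ∑ i, e (l₀.succAbove i) / e l₀ *
            (q (l₀.succAbove i) + s * e (l₀.succAbove i)) =
            ∑ i, e (l₀.succAbove i) / e l₀ * q' i + s * ∑ i, e (l₀.succAbove i) / e l₀ *
              e (l₀.succAbove i) := by
          rw [Finset.mul_sum, ← Finset.sum_add_distrib]
          refine Finset.sum_congr rfl fun i _ => ?_
          rw [hq']
          ring
        rw [h3, hesum, hsum]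
        ring
      · rw [h, Fin.insertNth_apply_succAbove]
    rw [h2] at h1
    exact h1.symm
  have hlead := lead_zero k P q e hline
  have h5 := hre'.trans (iso_lemma k e he (lead P) hlead hP)
  have := Nat.cast_le.1 h5
  omega

end Pool.Agent.Y445.TB2
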